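import Mathlib
import Pool.Agent.R710.Par.SL25

/-!
# MP_57c94c_al: the partial Hopf algebra of a semisimple Hopf algebra need not be semisimple
-/

set_option autoImplicit false

namespace Pool.Agent.Results.MP_57c94c_al.NotSemisimple

open Pool.Agent.R710.Par

universe u

/-- The answer to Q1 is negative: over every field `k` of characteristic two there is a
finite-dimensional commutative semisimple Hopf algebra `H` (the functions on the group
`SL(2,5) / {±1}`) whose partial Hopf algebra `H_par` is not semisimple. -/
theorem result (k : Type u) [Field k] [CharP k 2] :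
    ∃ (H : Type u) (_ : CommRing H) (_ : HopfAlgebra k H),
      FiniteDimensional k H ∧ IsSemisimpleRing H ∧ ¬ IsSemisimpleRing (HPar k H) := by
  refine ⟨Fn k (Γ5 ⧸ N5), inferInstance, inferInstance, ?_, ?_, main k⟩
  · exact (inferInstance : FiniteDimensional k ((Γ5 ⧸ N5) → k))
  · exact (inferInstance : IsSemisimpleRing ((Γ5 ⧸ N5) → k))

end Pool.Agent.Results.MP_57c94c_al.NotSemisimple
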